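import Pool.Agent.W207.SW.SpecS

set_option autoImplicit false

/-!
# Project SW, part ONE: from one-sided to two-sided
-/

open Filter Topology Set MeasureTheory
open scoped BigOperators

namespace Pool.Agent.W131.SWOne

open W207.SW

/-- the weight -/
noncomputable def w3 (v : ℝ) : ℝ := ((1 + |v|) ^ 3)⁻¹

theorem w3_nonneg (v : ℝ) : 0 ≤ w3 v := by
  unfold w3
  positivity

theorem w3_int : Integrable w3 := by
  have h := integrable_one_add_norm (E := ℝ) (μ := volume) (r := 3) (by norm_num)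
  refine h.congr (Eventually.of_forall fun v => ?_)
  change (1 + |v|) ^ (-(3 : ℝ)) = ((1 + |v|) ^ 3)⁻¹
  rw [Real.rpow_neg (by positivity)]
  congr 1
  exact Real.rpow_natCast _ 3

theorem peetre (u z : ℝ) : 1 + |u| ≤ (1 + |z|) * (1 + |u - z|) := by
  have h1 : |u| ≤ |z| + |u - z| := by
    have := abs_add_le z (u - z)
    rwa [add_sub_cancel] at this
  have h2 : 0 ≤ |z| * |u - z| := by positivity
  nlinarith

/-- kernels -/
structure Ker (b : ℝ → ℝ) (K D : ℝ) : Prop where
  hK : 0 < K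
  hD : 1 ≤ D
  cont : Continuous b
  even : ∀ u, b (-u) = b u
  nn : ∀ u, 0 ≤ b u
  le : ∀ u, b u ≤ K
  int : Integrable b
  one : ∫ u, b u = 1
  tail : ∀ u, D ≤ |u| → b u ≤ K * Real.exp (-(D / 4)) * (D / |u|) ^ 4

variable {b : ℝ → ℝ} {K D : ℝ}

theorem Ker.tail' (hb : Ker b K D) {v : ℝ} (hv : D ≤ |v|) :
    b v ≤ 16 * K * Real.exp (-(D / 4)) * D ^ 4 / (1 + |v|) ^ 4 := by
  have hK := hb.hK
  have hD := hb.hD
  have hv1 : 1 ≤ |v| := hD.trans hv
  refine (hb.tail v hv).trans ?_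
  have h1 : (1 + |v|) ^ 4 ≤ 16 * |v| ^ 4 := by
    calc (1 + |v|) ^ 4 ≤ (2 * |v|) ^ 4 := pow_le_pow_left₀ (by positivity) (by linarith) 4
      _ = 16 * |v| ^ 4 := by ring
  have h2 : (D / |v|) ^ 4 ≤ 16 * D ^ 4 / (1 + |v|) ^ 4 := by
    rw [div_pow, div_le_div_iff₀ (by positivity) (by positivity)]
    calc D ^ 4 * (1 + |v|) ^ 4 ≤ D ^ 4 * (16 * |v| ^ 4) :=
          mul_le_mul_of_nonneg_left h1 (by positivity)
      _ = 16 * D ^ 4 * |v| ^ 4 := by ring
  calc K * Real.exp (-(D / 4)) * (D / |v|) ^ 4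
      ≤ K * Real.exp (-(D / 4)) * (16 * D ^ 4 / (1 + |v|) ^ 4) :=
        mul_le_mul_of_nonneg_left h2 (by positivity)
    _ = _ := by ring

theorem Ker.dec (hb : Ker b K D) : ∃ Kb : ℝ, 0 ≤ Kb ∧ ∀ v, b v ≤ Kb / (1 + |v|) ^ 4 := by
  have hK := hb.hK
  have hD := hb.hD
  refine ⟨16 * K * (1 + D) ^ 4, by positivity, fun v => ?_⟩
  rcases le_or_gt D |v| with h | h
  · refine (hb.tail' h).trans ?_
    apply div_le_div_of_nonneg_right _ (by positivity)
    have h1 : Real.exp (-(D / 4)) ≤ 1 := Real.exp_le_one_iff.2 (by linarith)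
    have h2 : D ^ 4 ≤ (1 + D) ^ 4 := pow_le_pow_left₀ (by linarith) (by linarith) 4
    calc 16 * K * Real.exp (-(D / 4)) * D ^ 4 ≤ 16 * K * 1 * (1 + D) ^ 4 := by gcongr
      _ = _ := by ring
  · rw [le_div_iff₀ (by positivity)]
    have h2 : (1 + |v|) ^ 4 ≤ (1 + D) ^ 4 := pow_le_pow_left₀ (by positivity) (by linarith) 4
    calc b v * (1 + |v|) ^ 4 ≤ K * (1 + D) ^ 4 :=
          mul_le_mul (hb.le v) h2 (by positivity) hK.le
      _ ≤ 16 * K * (1 + D) ^ 4 := by
          have : 0 ≤ K * (1 + D) ^ 4 := by positivity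
          linarith

/-- integrability of the products -/
theorem Ker.int_mul (hb : Ker b K D) {G : ℝ → ℝ} (hG : Measurable G) {C1 : ℝ} (hC1 : 0 ≤ C1)
    (hG2 : ∀ᵐ u, |G u| ≤ C1 * (1 + |u|)) (z : ℝ) : Integrable (fun u => b (u - z) * G u) := by
  obtain ⟨Kb, hKb, hdec⟩ := hb.dec
  have hint : Integrable (fun u => Kb * C1 * (1 + |z|) * w3 (u - z)) :=
    (w3_int.comp_sub_right z).const_mul _
  refine hint.mono' ?_ ?_
  · exact ((hb.cont.comp (continuous_id.sub continuous_const)).measurable.mul hG).aestronglyMeasurable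
  · filter_upwards [hG2] with u hu
    rw [Real.norm_eq_abs, abs_mul, abs_of_nonneg (hb.nn _)]
    have h1 := hdec (u - z)
    have h2 := peetre u z
    have hp : 0 < 1 + |u - z| := by positivity
    calc b (u - z) * |G u| ≤ Kb / (1 + |u - z|) ^ 4 * (C1 * ((1 + |z|) * (1 + |u - z|))) := by
          apply mul_le_mul h1 _ (abs_nonneg _) (by positivity)
          exact hu.trans (mul_le_mul_of_nonneg_left h2 hC1)
      _ = Kb * C1 * (1 + |z|) * w3 (u - z) := by
          unfold w3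
          field_simp

/-- an upper bound for the average of a function -/
theorem Ker.upper (hb : Ker b K D) {G : ℝ → ℝ} (hG : Measurable G) {C0 M e1 z : ℝ} (hC0 : 0 ≤ C0)
    (hM : 0 ≤ M) (he1 : 0 ≤ e1) (hG2 : ∀ᵐ u, |G u| ≤ C0 * (1 + |u|) + M)
    (hG3 : ∀ᵐ u, |u - z| < D → G u ≤ e1) :
    ∫ u, b (u - z) * G u ≤ e1 + 16 * K * Real.exp (-(D / 4)) * D ^ 4 *
      (C0 * (1 + |z|) + M) * ∫ v, w3 v := by
  have hK := hb.hK
  have hD := hb.hD
  set W := 16 * K * Real.exp (-(D / 4)) * D ^ 4 * (C0 * (1 + |z|) + M) with hW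
  have hW0 : 0 ≤ W := by positivity
  have hI1 : Integrable (fun u => b (u - z) * e1) := (hb.int.comp_sub_right z).mul_const _
  have hI2 : Integrable (fun u => W * w3 (u - z)) := (w3_int.comp_sub_right z).const_mul _
  have hG2' : ∀ᵐ u, |G u| ≤ (C0 + M) * (1 + |u|) := by
    filter_upwards [hG2] with u hu
    have : 0 ≤ M * |u| := by positivity
    linarith
  have hI3 := hb.int_mul hG (by positivity : 0 ≤ C0 + M) hG2' z
  have key : ∫ u, b (u - z) * G u ≤ ∫ u, (b (u - z) * e1 + W * w3 (u - z)) := by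
    apply integral_mono_ae hI3 (hI1.add hI2)
    filter_upwards [hG2, hG3] with u hu2 hu3
    change b (u - z) * G u ≤ b (u - z) * e1 + W * w3 (u - z)
    have hw := w3_nonneg (u - z)
    have hbn := hb.nn (u - z)
    rcases lt_or_ge |u - z| D with h | h
    · have h1 := mul_le_mul_of_nonneg_left (hu3 h) hbn
      have h2 : 0 ≤ W * w3 (u - z) := by positivity
      linarith
    · have h1 := hb.tail' h
      have h2 := peetre u z
      have h3 : G u ≤ (C0 * (1 + |z|) + M) * (1 + |u - z|) := by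
        have h4 : C0 * (1 + |u|) ≤ C0 * ((1 + |z|) * (1 + |u - z|)) :=
          mul_le_mul_of_nonneg_left h2 hC0
        have h5 : 0 ≤ M * |u - z| := by positivity
        have h6 := (le_abs_self (G u)).trans hu2
        nlinarith
      have h7 : b (u - z) * G u ≤ b (u - z) * ((C0 * (1 + |z|) + M) * (1 + |u - z|)) :=
        mul_le_mul_of_nonneg_left h3 hbn
      have h8 : b (u - z) * ((C0 * (1 + |z|) + M) * (1 + |u - z|)) ≤
          16 * K * Real.exp (-(D / 4)) * D ^ 4 / (1 + |u - z|) ^ 4 *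
            ((C0 * (1 + |z|) + M) * (1 + |u - z|)) :=
        mul_le_mul_of_nonneg_right h1 (by positivity)
      have h9 : 16 * K * Real.exp (-(D / 4)) * D ^ 4 / (1 + |u - z|) ^ 4 *
            ((C0 * (1 + |z|) + M) * (1 + |u - z|)) = W * w3 (u - z) := by
        have hp : 0 < 1 + |u - z| := by positivity
        unfold w3
        rw [hW]
        field_simp
      have h10 : 0 ≤ b (u - z) * e1 := by positivity
      linarith
  refine key.trans (le_of_eq ?_)
  rw [integral_add hI1 hI2, integral_mul_const, integral_const_mul,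
    integral_sub_right_eq_self b z, integral_sub_right_eq_self w3 z, hb.one, one_mul]

/-- the average at a negative point of a function supported on the positive reals -/
theorem Ker.neg (hb : Ker b K D) {G : ℝ → ℝ} {C0 z : ℝ} (hC0 : 0 ≤ C0)
    (hG2 : ∀ᵐ u, |G u| ≤ C0 * (1 + |u|)) (hG0 : ∀ u, u ≤ 0 → G u = 0) (hz : D ≤ z) :
    |∫ u, b (u - -z) * G u| ≤ 16 * K * Real.exp (-(D / 4)) * D ^ 4 * C0 * ∫ v, w3 v := by
  have hK := hb.hK
  have hD := hb.hD
  rw [← Real.norm_eq_abs, ← integral_const_mul]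
  refine norm_integral_le_of_norm_le (w3_int.const_mul _) ?_
  filter_upwards [hG2] with u hu
  rw [Real.norm_eq_abs, abs_mul, abs_of_nonneg (hb.nn _)]
  have hw := w3_nonneg u
  rcases le_or_gt u 0 with h | h
  · rw [hG0 u h, abs_zero, mul_zero]
    positivity
  · have hz0 : 0 < z := by linarith
    have e : |u - -z| = u + z := by
      rw [sub_neg_eq_add, abs_of_pos (by linarith)]
    have h1 := hb.tail' (v := u - -z) (by rw [e]; linarith)
    rw [e] at h1
    rw [abs_of_pos h] at hu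
    have h2 : 16 * K * Real.exp (-(D / 4)) * D ^ 4 / (1 + (u + z)) ^ 4 ≤
        16 * K * Real.exp (-(D / 4)) * D ^ 4 / (1 + u) ^ 4 := by
      apply div_le_div_of_nonneg_left (by positivity) (by positivity)
      exact pow_le_pow_left₀ (by positivity) (by linarith) 4
    calc b (u - -z) * |G u| ≤ 16 * K * Real.exp (-(D / 4)) * D ^ 4 / (1 + u) ^ 4 *
          (C0 * (1 + u)) := mul_le_mul (h1.trans h2) hu (abs_nonneg _) (by positivity)
      _ = 16 * K * Real.exp (-(D / 4)) * D ^ 4 * C0 * w3 u := by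
          unfold w3
          rw [abs_of_pos h]
          field_simp

/-- good points exist in every interval -/
theorem exists_good {P : ℝ → Prop} (h : ∀ᵐ u, P u) {a c : ℝ} (hac : a < c) :
    ∃ u, a < u ∧ u < c ∧ P u := by
  by_contra hcon
  push Not at hcon
  have h1 : Ioo a c ⊆ {u | ¬ P u} := fun u hu => hcon u hu.1 hu.2
  have h2 : volume (Ioo a c) = 0 := measure_mono_null h1 h
  rw [Real.volume_Ioo, ENNReal.ofReal_eq_zero] at h2
  linarith

/-! ### The identity -/

theorem Ker.deriv_h (hb : Ker b K D) (x y u : ℝ) :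
    HasDerivAt (fun u => ∫ s in x..y, (b (u - s) + b (u + s)))
      (b (u - x) - b (u - y) + (b (u + y) - b (u + x))) u := by
  have hc := hb.cont
  have hii : ∀ a c, IntervalIntegrable b volume a c := fun a c => hc.intervalIntegrable a c
  have e : (fun u => ∫ s in x..y, (b (u - s) + b (u + s))) = fun u =>
      ((∫ t in (0 : ℝ)..(u - x), b t) - ∫ t in (0 : ℝ)..(u - y), b t) +
        ((∫ t in (0 : ℝ)..(u + y), b t) - ∫ t in (0 : ℝ)..(u + x), b t) := by
    funext u
    have ii1 : IntervalIntegrable (fun s => b (u - s)) volume x y :=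
      (hc.comp (continuous_const.sub continuous_id)).intervalIntegrable _ _
    have ii2 : IntervalIntegrable (fun s => b (u + s)) volume x y :=
      (hc.comp (continuous_const.add continuous_id)).intervalIntegrable _ _
    rw [intervalIntegral.integral_add ii1 ii2,
      intervalIntegral.integral_comp_sub_left (fun t => b t) u,
      intervalIntegral.integral_comp_add_left (fun t => b t) u,
      intervalIntegral.integral_interval_sub_left (hii _ _) (hii _ _),
      intervalIntegral.integral_interval_sub_left (hii _ _) (hii _ _)]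
  rw [e]
  have hB : ∀ v, HasDerivAt (fun u => ∫ t in (0 : ℝ)..u, b t) (b v) v :=
    fun v => (hc.integral_hasStrictDerivAt 0 v).hasDerivAt
  exact (((hB (u - x)).comp_sub_const u x).sub ((hB (u - y)).comp_sub_const u y)).add
    (((hB (u + y)).comp_add_const u y).sub ((hB (u + x)).comp_add_const u x))

/-- the average -/
noncomputable def Av (b G : ℝ → ℝ) (z : ℝ) : ℝ := ∫ u, b (u - z) * G u

theorem Ker.ext (hb : Ker b K D) (hBL : BL (1 / 2) b) (hB : S_BLI) (hE : S_EXT) {O : ℝ → ℝ}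
    {C0 : ℝ} (hC0 : 0 ≤ C0) (hO : Gr O C0) (hGap : Gap O 1) {x y : ℝ} (hx : 0 ≤ x)
    (hxy : x ≤ y) :
    Av b ((Ioi 0).indicator O) x - Av b ((Ioi 0).indicator O) y +
      (Av b ((Ioi 0).indicator O) (-y) - Av b ((Ioi 0).indicator O) (-x)) = 0 := by
  obtain ⟨Kb, hKb, hdec⟩ := hb.dec
  have hy : 0 ≤ y := hx.trans hxy
  have hc := hb.cont
  have hbd : ∀ u s : ℝ, |s| ≤ y → b (u - s) ≤ Kb * (1 + y) ^ 4 / (1 + |u|) ^ 3 := by
    intro u s hs
    refine (hdec (u - s)).trans ?_
    rw [div_le_div_iff₀ (by positivity) (by positivity)]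
    have h1 := peetre u s
    have h2 : 1 + |u| ≤ (1 + y) * (1 + |u - s|) :=
      h1.trans (mul_le_mul_of_nonneg_right (by linarith) (by positivity))
    have h3 : (1 + |u|) ^ 3 ≤ (1 + |u|) ^ 4 :=
      pow_le_pow_right₀ (by linarith [abs_nonneg u]) (by norm_num)
    have h4 : (1 + |u|) ^ 4 ≤ ((1 + y) * (1 + |u - s|)) ^ 4 :=
      pow_le_pow_left₀ (by positivity) h2 4
    calc Kb * (1 + |u|) ^ 3 ≤ Kb * ((1 + y) * (1 + |u - s|)) ^ 4 :=
          mul_le_mul_of_nonneg_left (h3.trans h4) hKb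
      _ = _ := by
          rw [mul_pow]
          ring
  have hbd' : ∀ u s : ℝ, |s| ≤ y → b (u + s) ≤ Kb * (1 + y) ^ 4 / (1 + |u|) ^ 3 := by
    intro u s hs
    have := hbd u (-s) (by rwa [abs_neg])
    rwa [sub_neg_eq_add] at this
  have hxa : |x| ≤ y := by rwa [abs_of_nonneg hx]
  have hya : |y| ≤ y := by rw [abs_of_nonneg hy]
  have h1 := hE O (fun u => ∫ s in x..y, (b (u - s) + b (u + s)))
    (fun u => b (u - x) - b (u - y) + (b (u + y) - b (u + x))) C0 1 (1 / 2)
    (4 * (Kb * (1 + y) ^ 4) * (1 + |y - x|)) hO hGap (by norm_num) (by norm_num)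
    (hB (1 / 2) x y b (by norm_num) hxy hBL) (hb.deriv_h x y) (by fun_prop) (by
      intro u
      have hp : 0 ≤ Kb * (1 + y) ^ 4 / (1 + |u|) ^ 3 := by positivity
      have e : 4 * (Kb * (1 + y) ^ 4) * (1 + |y - x|) / (1 + |u|) ^ 3 =
          4 * (Kb * (1 + y) ^ 4 / (1 + |u|) ^ 3) + 4 * (Kb * (1 + y) ^ 4 / (1 + |u|) ^ 3) *
            |y - x| := by ring
      rw [e]
      have hp2 : 0 ≤ Kb * (1 + y) ^ 4 / (1 + |u|) ^ 3 * |y - x| := by positivity
      constructor
      · have h2 := intervalIntegral.norm_integral_le_of_norm_le_const (a := x) (b := y)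
          (f := fun s => b (u - s) + b (u + s)) (C := 2 * (Kb * (1 + y) ^ 4 / (1 + |u|) ^ 3)) (by
            intro s hs
            rw [uIoc_of_le hxy] at hs
            have hs' : |s| ≤ y := by
              rw [abs_of_nonneg (hx.trans hs.1.le)]
              exact hs.2
            rw [Real.norm_eq_abs, abs_of_nonneg (add_nonneg (hb.nn _) (hb.nn _))]
            linarith [hbd u s hs', hbd' u s hs'])
        rw [Real.norm_eq_abs] at h2
        refine h2.trans ?_
        linarith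
      · have a1 := hbd u x hxa
        have a2 := hbd u y hya
        have a3 := hbd' u x hxa
        have a4 := hbd' u y hya
        have b1 := hb.nn (u - x)
        have b2 := hb.nn (u - y)
        have b3 := hb.nn (u + x)
        have b4 := hb.nn (u + y)
        rw [abs_le]
        constructor <;> linarith)
  have hG : Measurable ((Ioi (0 : ℝ)).indicator O) := hO.1.indicator measurableSet_Ioi
  have hG2 : ∀ᵐ u, |(Ioi (0 : ℝ)).indicator O u| ≤ C0 * (1 + |u|) := by
    have h2 := (ae_restrict_iff' measurableSet_Ioi).1 hO.2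
    filter_upwards [h2] with u hu
    by_cases hu0 : u ∈ Ioi (0 : ℝ)
    · rw [indicator_of_mem hu0, abs_of_pos (mem_Ioi.1 hu0)]
      exact hu hu0
    · rw [indicator_of_notMem hu0, abs_zero]
      positivity
  have i1 := hb.int_mul hG hC0 hG2 x
  have i2 := hb.int_mul hG hC0 hG2 y
  have i3 := hb.int_mul hG hC0 hG2 (-y)
  have i4 := hb.int_mul hG hC0 hG2 (-x)
  have h3 : ∫ u in Ioi (0 : ℝ), (b (u - x) - b (u - y) + (b (u + y) - b (u + x))) * O u =
      ∫ u, ((b (u - x) * (Ioi (0 : ℝ)).indicator O u - b (u - y) * (Ioi (0 : ℝ)).indicator O u) +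
        (b (u - -y) * (Ioi (0 : ℝ)).indicator O u -
          b (u - -x) * (Ioi (0 : ℝ)).indicator O u)) := by
    rw [← integral_indicator measurableSet_Ioi]
    refine integral_congr_ae (Eventually.of_forall fun u => ?_)
    by_cases hu0 : u ∈ Ioi (0 : ℝ)
    · simp only [indicator_of_mem hu0, sub_neg_eq_add]
      ring
    · simp only [indicator_of_notMem hu0]
      ring
  have i12 : Integrable (fun u => b (u - x) * (Ioi (0 : ℝ)).indicator O u -
      b (u - y) * (Ioi (0 : ℝ)).indicator O u) := i1.sub i2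
  have i34 : Integrable (fun u => b (u - -y) * (Ioi (0 : ℝ)).indicator O u -
      b (u - -x) * (Ioi (0 : ℝ)).indicator O u) := i3.sub i4
  rw [h3, integral_add i12 i34, integral_sub i1 i2, integral_sub i3 i4] at h1
  exact h1

/-! ### The estimates -/

theorem Ker.av_sub (hb : Ker b K D) {G : ℝ → ℝ} (hG : Measurable G) {C0 : ℝ} (hC0 : 0 ≤ C0)
    (hG2 : ∀ᵐ u, |G u| ≤ C0 * (1 + |u|)) (z c : ℝ) :
    ∫ u, b (u - z) * (G u - c) = Av b G z - c := by
  have i1 := hb.int_mul hG hC0 hG2 z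
  have i2 : Integrable (fun u => b (u - z) * c) := (hb.int.comp_sub_right z).mul_const _
  simp only [mul_sub]
  rw [integral_sub i1 i2, integral_mul_const, integral_sub_right_eq_self b z, hb.one, one_mul]
  rfl

/-- the error term -/
noncomputable def Er (K C0 C δ R : ℝ) : ℝ :=
  16 * K * Real.exp (-(δ * R / 12 / 4)) * (δ * R / 12) ^ 4 *
    (C0 * (1 + (1 + δ) * R) + (C0 * (1 + (1 + δ) * R) + C)) * (∫ v, w3 v) +
  2 * (16 * K * Real.exp (-(δ * R / 12 / 4)) * (δ * R / 12) ^ 4 * C0 * ∫ v, w3 v)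

theorem pos_case (hE : S_EXT) (hB : S_BLI) {C0 C δ ε R : ℝ} (hb : Ker b K (δ * R / 12))
    (hBL : BL (1 / 2) b) (hC0 : 0 < C0) (hC : 0 < C) (hδ : 0 < δ) (hε : 0 < ε) (hR : 1 ≤ R)
    {O : ℝ → ℝ} {N : Set ℝ} (hO : Gr O C0) (hGap : Gap O 1) (hN : N.Countable)
    (hmono : ∀ u v, u ∉ N → v ∉ N → R < u → u < v → v < (1 + δ) * R →
      -(C * Real.exp (-(ε * R))) ≤ O v - O u) :
    ∃ c : ℝ, |c| ≤ (C0 * (1 + (1 + δ) * R) + C) + (C * Real.exp (-(ε * R)) + Er K C0 C δ R) ∧
      ∀ p, p ∉ N → (1 + δ / 3) * R < p → p < (1 + 2 * δ / 3) * R →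
        |O p - c| ≤ C * Real.exp (-(ε * R)) + Er K C0 C δ R := by
  have hK := hb.hK
  have hR0 : 0 < R := by linarith
  have hδR : 0 < δ * R := by positivity
  have he0 : 0 ≤ C * Real.exp (-(ε * R)) := by positivity
  have he1 : C * Real.exp (-(ε * R)) ≤ C := by
    have h1 : Real.exp (-(ε * R)) ≤ 1 := Real.exp_le_one_iff.2 (by nlinarith)
    exact mul_le_of_le_one_right hC.le h1
  have hI3 : 0 ≤ ∫ v, w3 v := integral_nonneg w3_nonneg
  have hG : Measurable ((Ioi (0 : ℝ)).indicator O) := hO.1.indicator measurableSet_Ioi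
  have hG2 : ∀ᵐ u, |(Ioi (0 : ℝ)).indicator O u| ≤ C0 * (1 + |u|) := by
    have h2 := (ae_restrict_iff' measurableSet_Ioi).1 hO.2
    filter_upwards [h2] with u hu
    by_cases hu0 : u ∈ Ioi (0 : ℝ)
    · rw [indicator_of_mem hu0, abs_of_pos (mem_Ioi.1 hu0)]
      exact hu hu0
    · rw [indicator_of_notMem hu0, abs_zero]
      positivity
  have hGO : ∀ u, 0 < u → (Ioi (0 : ℝ)).indicator O u = O u :=
    fun u hu => indicator_of_mem (mem_Ioi.2 hu) O
  have hGz : ∀ u, u ≤ 0 → (Ioi (0 : ℝ)).indicator O u = 0 :=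
    fun u hu => indicator_of_notMem (by simpa using hu) O
  have hNae : ∀ᵐ u, u ∉ N := hN.ae_notMem volume
  set M := C0 * (1 + (1 + δ) * R) + C with hM
  have hM0 : 0 ≤ M := by positivity
  -- bound for the values
  have hval : ∀ p, p ∉ N → (1 + δ / 3) * R < p → p < (1 + 2 * δ / 3) * R → |O p| ≤ M := by
    intro p hp hp1 hp2
    obtain ⟨u, hu1, hu2, hu3, hu4⟩ := exists_good (hNae.and hG2)
      (show (1 + δ / 12) * R < (1 + δ / 4) * R by nlinarith)
    obtain ⟨v, hv1, hv2, hv3, hv4⟩ := exists_good (hNae.and hG2)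
      (show (1 + 3 * δ / 4) * R < (1 + 11 * δ / 12) * R by nlinarith)
    have hu0 : 0 < u := by nlinarith
    have hv0 : 0 < v := by nlinarith
    rw [hGO u hu0, abs_of_pos hu0] at hu4
    rw [hGO v hv0, abs_of_pos hv0] at hv4
    have m1 := hmono u p hu3 hp (by nlinarith) (by nlinarith) (by nlinarith)
    have m2 := hmono p v hp hv3 (by nlinarith) (by nlinarith) (by nlinarith)
    rw [abs_le] at hu4 hv4
    have g1 : C0 * (1 + u) ≤ C0 * (1 + (1 + δ) * R) :=
      mul_le_mul_of_nonneg_left (by nlinarith) hC0.le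
    have g2 : C0 * (1 + v) ≤ C0 * (1 + (1 + δ) * R) :=
      mul_le_mul_of_nonneg_left (by nlinarith) hC0.le
    rw [abs_le]
    constructor
    · linarith [hu4.1]
    · linarith [hv4.2]
  have hx0 : 0 ≤ (1 + δ / 6) * R := by positivity
  have hxy : (1 + δ / 6) * R ≤ (1 + 5 * δ / 6) * R := by nlinarith
  have hid := hb.ext hBL hB hE hC0.le hO hGap hx0 hxy
  have n1 := hb.neg (z := (1 + δ / 6) * R) hC0.le hG2 hGz (by nlinarith)
  have n2 := hb.neg (z := (1 + 5 * δ / 6) * R) hC0.le hG2 hGz (by nlinarith)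
  change |Av b ((Ioi (0 : ℝ)).indicator O) (-((1 + δ / 6) * R))| ≤ _ at n1
  change |Av b ((Ioi (0 : ℝ)).indicator O) (-((1 + 5 * δ / 6) * R))| ≤ _ at n2
  -- the main estimate
  have hmain : ∀ p, p ∉ N → (1 + δ / 3) * R < p → p < (1 + 2 * δ / 3) * R →
      |O p - Av b ((Ioi (0 : ℝ)).indicator O) ((1 + δ / 6) * R)| ≤
        C * Real.exp (-(ε * R)) + Er K C0 C δ R := by
    intro p hp hp1 hp2
    have hpM := hval p hp hp1 hp2
    have hW : ∀ z : ℝ, |z| ≤ (1 + δ) * R →
        16 * K * Real.exp (-(δ * R / 12 / 4)) * (δ * R / 12) ^ 4 * (C0 * (1 + |z|) + M) *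
          (∫ v, w3 v) ≤ 16 * K * Real.exp (-(δ * R / 12 / 4)) * (δ * R / 12) ^ 4 *
          (C0 * (1 + (1 + δ) * R) + M) * (∫ v, w3 v) := by
      intro z hz
      gcongr
    have u1 := hb.upper (G := fun u => (Ioi (0 : ℝ)).indicator O u - O p) (hG.sub_const _)
      (C0 := C0) (M := M) (e1 := C * Real.exp (-(ε * R))) (z := (1 + δ / 6) * R) hC0.le hM0 he0
      (by
        filter_upwards [hG2] with u hu
        have := abs_sub ((Ioi (0 : ℝ)).indicator O u) (O p)
        linarith)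
      (by
        filter_upwards [hNae] with u hu
        intro huz
        rw [abs_lt] at huz
        have hu0 : 0 < u := by nlinarith [huz.1]
        rw [hGO u hu0]
        have m1 := hmono u p hu hp (by nlinarith [huz.1]) (by nlinarith [huz.2]) (by nlinarith)
        linarith)
    rw [hb.av_sub hG hC0.le hG2] at u1
    have u2 := hb.upper (G := fun u => O p - (Ioi (0 : ℝ)).indicator O u)
      (measurable_const.sub hG)
      (C0 := C0) (M := M) (e1 := C * Real.exp (-(ε * R))) (z := (1 + 5 * δ / 6) * R) hC0.le hM0 he0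
      (by
        filter_upwards [hG2] with u hu
        have := abs_sub (O p) ((Ioi (0 : ℝ)).indicator O u)
        linarith)
      (by
        filter_upwards [hNae] with u hu
        intro huz
        rw [abs_lt] at huz
        have hu0 : 0 < u := by nlinarith [huz.1]
        rw [hGO u hu0]
        have m1 := hmono p u hp hu (by nlinarith) (by nlinarith [huz.1]) (by nlinarith [huz.2])
        linarith)
    have e2 : ∫ u, b (u - (1 + 5 * δ / 6) * R) * (O p - (Ioi (0 : ℝ)).indicator O u) =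
        -(Av b ((Ioi (0 : ℝ)).indicator O) ((1 + 5 * δ / 6) * R) - O p) := by
      rw [← hb.av_sub hG hC0.le hG2, ← integral_neg]
      refine integral_congr_ae (Eventually.of_forall fun u => ?_)
      ring
    rw [e2] at u2
    have w1 := hW ((1 + δ / 6) * R) (by rw [abs_of_nonneg hx0]; nlinarith)
    have w2 := hW ((1 + 5 * δ / 6) * R) (by rw [abs_of_nonneg (hx0.trans hxy)]; nlinarith)
    have hT : 0 ≤ 16 * K * Real.exp (-(δ * R / 12 / 4)) * (δ * R / 12) ^ 4 * C0 * ∫ v, w3 v := by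
      positivity
    rw [abs_le] at n1 n2
    unfold Er
    rw [abs_le]
    constructor
    · linarith [n1.1, n1.2, n2.1, n2.2]
    · linarith [n1.1, n1.2, n2.1, n2.2]
  refine ⟨Av b ((Ioi (0 : ℝ)).indicator O) ((1 + δ / 6) * R), ?_, hmain⟩
  obtain ⟨p, hp1, hp2, hp3⟩ := exists_good hNae
    (show (1 + δ / 3) * R < (1 + 2 * δ / 3) * R by nlinarith)
  have h1 := hval p hp3 hp1 hp2
  have h2 := hmain p hp3 hp1 hp2
  have h3 := abs_sub_abs_le_abs_sub (Av b ((Ioi (0 : ℝ)).indicator O) ((1 + δ / 6) * R)) (O p)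
  rw [abs_sub_comm] at h3
  linarith

theorem num (C0 C δ ε K : ℝ) (hC0 : 0 < C0) (hC : 0 < C) (hδ : 0 < δ) (hε : 0 < ε)
    (hK : 0 < K) : ∃ C' : ℝ, 0 < C' ∧ ∀ R : ℝ, 1 ≤ R →
    C * Real.exp (-(ε * R)) + Er K C0 C δ R ≤ C' * Real.exp (-(min ε (δ / 96) * R)) := by
  have hI3 : 0 ≤ ∫ v, w3 v := integral_nonneg w3_nonneg
  set I3 := ∫ v, w3 v with hI
  set Q2 := 16 * K * (δ / 12) ^ 4 * (2 * C0 * (1 + δ) + C) * I3 +
    32 * K * (δ / 12) ^ 4 * C0 * I3 with hQ2
  set Q3 := 120 * (96 / δ) ^ 5 * Real.exp (δ / 96) with hQ3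
  have hQ20 : 0 ≤ Q2 := by positivity
  have hQ30 : 0 ≤ Q3 := by positivity
  refine ⟨C + Q2 * Q3, by positivity, fun R hR => ?_⟩
  have hR0 : 0 < R := by linarith
  have h1 : (1 + R) ^ 5 ≤ Q3 * Real.exp (δ * R / 96) := by
    have h2 := Real.pow_div_factorial_le_exp (δ * (1 + R) / 96) (by positivity) 5
    have h3 : (1 + R) ^ 5 = 120 * (96 / δ) ^ 5 *
        ((δ * (1 + R) / 96) ^ 5 / (Nat.factorial 5 : ℕ)) := by
      have : (Nat.factorial 5 : ℕ) = 120 := by decide
      rw [this]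
      push_cast
      field_simp
    have h4 : Real.exp (δ * (1 + R) / 96) = Real.exp (δ / 96) * Real.exp (δ * R / 96) := by
      rw [← Real.exp_add]
      congr 1
      ring
    rw [h3]
    calc 120 * (96 / δ) ^ 5 * ((δ * (1 + R) / 96) ^ 5 / (Nat.factorial 5 : ℕ))
        ≤ 120 * (96 / δ) ^ 5 * Real.exp (δ * (1 + R) / 96) :=
          mul_le_mul_of_nonneg_left h2 (by positivity)
      _ = Q3 * Real.exp (δ * R / 96) := by
          rw [h4, hQ3]
          ring
  have h5 : Er K C0 C δ R ≤ Q2 * (1 + R) ^ 5 * Real.exp (-(δ * R / 12 / 4)) := by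
    have a1 : (δ * R / 12) ^ 4 ≤ (δ / 12) ^ 4 * (1 + R) ^ 4 := by
      rw [← mul_pow]
      apply pow_le_pow_left₀ (by positivity)
      have : 0 ≤ δ / 12 := by positivity
      nlinarith
    have a2 : C0 * (1 + (1 + δ) * R) + (C0 * (1 + (1 + δ) * R) + C) ≤
        (2 * C0 * (1 + δ) + C) * (1 + R) := by
      have : 0 ≤ C0 * δ := by positivity
      have : 0 ≤ C * R := by positivity
      nlinarith
    have a3 : (1 + R) ^ 4 ≤ (1 + R) ^ 5 := pow_le_pow_right₀ (by linarith) (by norm_num)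
    unfold Er
    rw [← hI]
    set e := Real.exp (-(δ * R / 12 / 4)) with he
    have he0 : 0 < e := Real.exp_pos _
    have t1 : 16 * K * e * (δ * R / 12) ^ 4 *
        (C0 * (1 + (1 + δ) * R) + (C0 * (1 + (1 + δ) * R) + C)) * I3 ≤
        16 * K * e * ((δ / 12) ^ 4 * (1 + R) ^ 4) * ((2 * C0 * (1 + δ) + C) * (1 + R)) * I3 := by
      gcongr
    have t2 : 16 * K * e * (δ * R / 12) ^ 4 * C0 * I3 ≤
        16 * K * e * ((δ / 12) ^ 4 * (1 + R) ^ 5) * C0 * I3 := by
      have : (δ * R / 12) ^ 4 ≤ (δ / 12) ^ 4 * (1 + R) ^ 5 :=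
        a1.trans (mul_le_mul_of_nonneg_left a3 (by positivity))
      gcongr
    calc _ ≤ 16 * K * e * ((δ / 12) ^ 4 * (1 + R) ^ 4) *
          ((2 * C0 * (1 + δ) + C) * (1 + R)) * I3 +
          2 * (16 * K * e * ((δ / 12) ^ 4 * (1 + R) ^ 5) * C0 * I3) := by linarith
      _ = Q2 * (1 + R) ^ 5 * e := by
          rw [hQ2]
          ring
  have h6 : Er K C0 C δ R ≤ Q2 * Q3 * Real.exp (-(δ / 96 * R)) := by
    refine h5.trans ?_
    calc Q2 * (1 + R) ^ 5 * Real.exp (-(δ * R / 12 / 4))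
        ≤ Q2 * (Q3 * Real.exp (δ * R / 96)) * Real.exp (-(δ * R / 12 / 4)) := by gcongr
      _ = Q2 * Q3 * (Real.exp (δ * R / 96) * Real.exp (-(δ * R / 12 / 4))) := by ring
      _ = Q2 * Q3 * Real.exp (-(δ / 96 * R)) := by
          rw [← Real.exp_add]
          congr 2
          ring
  have m1 : min ε (δ / 96) * R ≤ ε * R := mul_le_mul_of_nonneg_right (min_le_left _ _) hR0.le
  have m2 : min ε (δ / 96) * R ≤ δ / 96 * R :=
    mul_le_mul_of_nonneg_right (min_le_right _ _) hR0.le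
  have x1 : Real.exp (-(ε * R)) ≤ Real.exp (-(min ε (δ / 96) * R)) :=
    Real.exp_le_exp.2 (by linarith)
  have x2 : Real.exp (-(δ / 96 * R)) ≤ Real.exp (-(min ε (δ / 96) * R)) :=
    Real.exp_le_exp.2 (by linarith)
  calc C * Real.exp (-(ε * R)) + Er K C0 C δ R
      ≤ C * Real.exp (-(min ε (δ / 96) * R)) + Q2 * Q3 * Real.exp (-(min ε (δ / 96) * R)) :=
        add_le_add (mul_le_mul_of_nonneg_left x1 hC.le)
          (h6.trans (mul_le_mul_of_nonneg_left x2 (by positivity)))
    _ = _ := by ring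

theorem one : S_EXT → S_BLI → S_KB → S_ONE := by
  intro hE hB hKB C0 C δ ε hC0 hC hδ hε
  obtain ⟨K, hK, hker⟩ := hKB 1 one_pos
  obtain ⟨C', hC', hnum⟩ := num C0 C δ ε K hC0 hC hδ hε hK
  have hε' : 0 < min ε (δ / 96) := lt_min hε (by positivity)
  have key : ∀ (O : ℝ → ℝ) (N : Set ℝ), Gr O C0 → Gap O 1 → N.Countable → ∀ R : ℝ,
      96 / δ + 1 ≤ R → (∀ u v, u ∉ N → v ∉ N → R < u → u < v → v < (1 + δ) * R →
      -(C * Real.exp (-(ε * R))) ≤ O v - O u) →
      ∃ c : ℝ, |c| ≤ (C' + C0 * (1 + δ) + C) * (1 + R) ∧ ∀ u, u ∉ N → (1 + δ / 3) * R < u →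
        u < (1 + 2 * δ / 3) * R →
        |O u - c| ≤ (C' + C0 * (1 + δ) + C) * Real.exp (-(min ε (δ / 96) * R)) := by
    intro O N hO hGap hN R hR hmono
    have h96 : 0 < 96 / δ := by positivity
    have hR1 : 1 ≤ R := by linarith
    have hR0 : 0 < R := by linarith
    have hδR : 96 ≤ δ * R := by
      have h1 : 96 / δ ≤ R := by linarith
      rw [div_le_iff₀ hδ] at h1
      linarith
    obtain ⟨b, hb1, hb2, hb3, hb4, hb5, hb6, hb7⟩ := hker 1 (δ * R / 12) one_pos le_rfl
      (by linarith)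
    have hbk : Ker b K (δ * R / 12) :=
      { hK := hK
        hD := by linarith
        cont := hb1
        even := hb2
        nn := fun u => (hb3 u).1
        le := fun u => (hb3 u).2
        int := hb4
        one := hb5
        tail := fun u hu => by
          have := hb7 u hu
          rwa [one_mul] at this }
    obtain ⟨c, hc1, hc2⟩ := pos_case hE hB hbk hb6 hC0 hC hδ hε hR1 hO hGap hN hmono
    have hn := hnum R hR1
    have hexp : Real.exp (-(min ε (δ / 96) * R)) ≤ 1 := Real.exp_le_one_iff.2 (by nlinarith)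
    have hexp0 := Real.exp_pos (-(min ε (δ / 96) * R))
    refine ⟨c, ?_, fun u hu1 hu2 hu3 => ?_⟩
    · have h1 : C' * Real.exp (-(min ε (δ / 96) * R)) ≤ C' := mul_le_of_le_one_right hC'.le hexp
      have h2 : 0 ≤ C0 * δ := by positivity
      have h3 : 0 ≤ C' * R := by positivity
      have h4 : 0 ≤ C * R := by positivity
      nlinarith
    · refine (hc2 u hu1 hu2 hu3).trans (hn.trans ?_)
      apply mul_le_mul_of_nonneg_right _ hexp0.le
      have h2 : 0 ≤ C0 * (1 + δ) := by positivity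
      linarith
  refine ⟨C' + C0 * (1 + δ) + C, min ε (δ / 96), 96 / δ + 1, by positivity, hε', by positivity, ?_⟩
  intro O N hO hGap hN R σ hR hσ hmono
  rcases hσ with rfl | rfl
  · refine key O N hO hGap hN R hR fun u v h1 h2 h3 h4 h5 => ?_
    have := hmono u v h1 h2 h3 h4 h5
    rwa [one_mul] at this
  · have hO' : Gr (fun u => -O u) C0 := by
      refine ⟨hO.1.neg, ?_⟩
      filter_upwards [hO.2] with u hu
      rwa [abs_neg]
    have hGap' : Gap (fun u => -O u) 1 := by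
      intro ψ hψ
      have h1 := hGap ψ hψ
      simp only [mul_neg]
      rw [integral_neg, h1, neg_zero]
    obtain ⟨c, hc1, hc2⟩ := key (fun u => -O u) N hO' hGap' hN R hR
      (fun u v h1 h2 h3 h4 h5 => by
        have := hmono u v h1 h2 h3 h4 h5
        linarith)
    refine ⟨-c, by rwa [abs_neg], fun u hu1 hu2 hu3 => ?_⟩
    have h1 := hc2 u hu1 hu2 hu3
    have e : O u - -c = -(-O u - c) := by ring
    rwa [e, abs_neg]

end Pool.Agent.W131.SWOne
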